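import Mathlib

/-!
# Largest induced tree, average eccentricity and neighbourhood independence

We disprove `tree(G) ≥ ⌈ecc_avg(G) + (1/3) max λ(v)⌉` with a graph on 19 vertices:
a centre `0` with four neighbours `1, 2, 3, 4`, a clique `5, …, 11` joined completely to `1, 2`
and a clique `12, …, 18` joined completely to `3, 4`.
-/

namespace Pool.Agent.Results.MP_e3442a_co.InducedTreeBoundFails

open SimpleGraph

/-- `tree(G)`: the largest size of a vertex set inducing a tree. -/
noncomputable def treeNumber {V : Type} (G : SimpleGraph V) : ℕ :=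
  sSup {k | ∃ S : Finset V, (G.induce (S : Set V)).IsTree ∧ S.card = k}

/-- The eccentricity of `v`. -/
noncomputable def ecc {V : Type} [Fintype V] (G : SimpleGraph V) (v : V) : ℕ :=
  Finset.univ.sup (fun u => G.dist v u)

/-- The average eccentricity. -/
noncomputable def eccAvg {V : Type} [Fintype V] (G : SimpleGraph V) : ℝ :=
  (∑ v : V, (ecc G v : ℝ)) / Fintype.card V

/-- `λ(v)`: the independence number of the subgraph induced by the neighbourhood of `v`. -/
noncomputable def lam {V : Type} (G : SimpleGraph V) (v : V) : ℕ :=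
  (G.induce (G.neighborSet v)).indepNum

/-- The maximum of `λ(v)` over all vertices. -/
noncomputable def maxLam {V : Type} [Fintype V] (G : SimpleGraph V) : ℕ :=
  Finset.univ.sup (fun v => lam G v)

section dist

variable {V : Type} (G : SimpleGraph V) (D : V → V → ℕ)

theorem dist_eq (h0 : ∀ u, D u u = 0) (h3 : ∀ u v, D u v = 0 → u = v)
    (h1 : ∀ u v w, G.Adj v w → D u w ≤ D u v + 1)
    (h2 : ∀ u v, D u v ≠ 0 → ∃ w, G.Adj v w ∧ D u w + 1 = D u v) :
    (∀ u v, G.Reachable u v) ∧ ∀ u v, G.dist u v = D u v := by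
  have hex : ∀ (k : ℕ) (u v : V), D u v = k → ∃ p : G.Walk u v, p.length = k := by
    intro k
    induction k with
    | zero =>
      intro u v h
      have := h3 u v h
      subst this
      exact ⟨Walk.nil, rfl⟩
    | succ k ih =>
      intro u v h
      obtain ⟨w, hw, hd⟩ := h2 u v (by omega)
      obtain ⟨p, hp⟩ := ih u w (by omega)
      exact ⟨p.concat hw.symm, by simp [hp]⟩
  have hle : ∀ (u v : V) (p : G.Walk v u), D u v ≤ p.length := by
    intro u v p
    induction p with
    | nil => simp [h0]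
    | @cons a b c h p ih =>
      have := h1 c b a h.symm
      simp only [Walk.length_cons]
      omega
  refine ⟨fun u v => ?_, fun u v => ?_⟩
  · obtain ⟨p, _⟩ := hex _ u v rfl
    exact ⟨p⟩
  · obtain ⟨p, hp⟩ := hex _ u v rfl
    apply le_antisymm
    · rw [← hp]
      exact G.dist_le p
    · obtain ⟨q, hq⟩ := (show G.Reachable v u from ⟨p.reverse⟩).exists_walk_length_eq_dist
      rw [G.dist_comm, ← hq]
      exact hle u v q

end dist

/-- The class of a vertex: `0` the centre, `1` the vertices `1, 2`, `2` the vertices `3, 4`,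
`3` the clique `5, …, 11`, `4` the clique `12, …, 18`. -/
def cls (a : Fin 19) : ℕ :=
  if a.val = 0 then 0 else if a.val ≤ 2 then 1 else if a.val ≤ 4 then 2 else
    if a.val ≤ 11 then 3 else 4

/-- Adjacency of classes. -/
def clsAdj : ℕ → ℕ → Bool
  | 0, 1 => true
  | 1, 0 => true
  | 0, 2 => true
  | 2, 0 => true
  | 1, 3 => true
  | 3, 1 => true
  | 2, 4 => true
  | 4, 2 => true
  | 3, 3 => true
  | 4, 4 => true
  | _, _ => false

/-- The counterexample. -/
def W : SimpleGraph (Fin 19) where
  Adj a b := a ≠ b ∧ clsAdj (cls a) (cls b) = true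
  symm := ⟨by
    intro a b h
    refine ⟨h.1.symm, ?_⟩
    revert a b
    decide +kernel⟩
  loopless := ⟨fun a h => h.1 rfl⟩

instance : DecidableRel W.Adj := fun a b =>
  inferInstanceAs (Decidable (a ≠ b ∧ clsAdj (cls a) (cls b) = true))

/-- Distances of distinct vertices depend on the classes only. -/
def clsDist : ℕ → ℕ → ℕ
  | 0, 1 => 1
  | 1, 0 => 1
  | 0, 2 => 1
  | 2, 0 => 1
  | 0, 3 => 2
  | 3, 0 => 2
  | 0, 4 => 2
  | 4, 0 => 2
  | 1, 1 => 2
  | 1, 2 => 2
  | 2, 1 => 2
  | 2, 2 => 2
  | 1, 3 => 1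
  | 3, 1 => 1
  | 1, 4 => 3
  | 4, 1 => 3
  | 2, 3 => 3
  | 3, 2 => 3
  | 2, 4 => 1
  | 4, 2 => 1
  | 3, 3 => 1
  | 4, 4 => 1
  | 3, 4 => 4
  | 4, 3 => 4
  | _, _ => 0

/-- The distance function. -/
def D (a b : Fin 19) : ℕ := if a = b then 0 else clsDist (cls a) (cls b)

theorem dist_W : (∀ u v, W.Reachable u v) ∧ ∀ u v, W.dist u v = D u v := by
  refine dist_eq W D ?_ ?_ ?_ ?_
  · decide +kernel
  · decide +kernel
  · decide +kernel
  · decide +kernel

theorem W_connected : W.Connected := ⟨dist_W.1⟩

theorem sum_ecc : ∑ v : Fin 19, ecc W v = 70 := by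
  have : ∀ v, ecc W v = Finset.univ.sup (fun u => D v u) := by
    intro v
    unfold ecc
    congr 1
    funext u
    exact dist_W.2 v u
  simp only [this]
  decide +kernel

/-- The four neighbours of the centre. -/
def nb (i : Fin 4) : Fin 19 := ⟨i.val + 1, by omega⟩

theorem nb_mem (i : Fin 4) : nb i ∈ W.neighborSet 0 := by
  have : ∀ i : Fin 4, W.Adj 0 (nb i) := by decide +kernel
  exact this i

theorem maxLam_ge : 4 ≤ maxLam W := by
  refine le_trans ?_ (Finset.le_sup (f := fun v => lam W v) (Finset.mem_univ (0 : Fin 19)))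
  let f : Fin 4 → W.neighborSet 0 := fun i => ⟨nb i, nb_mem i⟩
  have hf : Function.Injective f := by
    intro i j h
    have h2 : nb i = nb j := congrArg Subtype.val h
    revert i j
    decide +kernel
  have hnb : ∀ i j : Fin 4, ¬ W.Adj (nb i) (nb j) := by decide +kernel
  have hind : (W.induce (W.neighborSet 0)).IsIndepSet
      ((Finset.univ.map ⟨f, hf⟩ : Finset (W.neighborSet 0)) : Set (W.neighborSet 0)) := by
    intro a ha b hb _
    simp only [Finset.coe_map, Function.Embedding.coeFn_mk, Finset.coe_univ, Set.image_univ,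
      Set.mem_range] at ha hb
    obtain ⟨i, rfl⟩ := ha
    obtain ⟨j, rfl⟩ := hb
    exact hnb i j
  have := hind.card_le_indepNum
  rw [Finset.card_map, Finset.card_univ, Fintype.card_fin] at this
  exact this

section trees

variable {S : Finset (Fin 19)}

theorem acyclic_two (hS : (W.induce (S : Set (Fin 19))).IsAcyclic) {a b c d : Fin 19}
    (ha : a ∈ S) (hb : b ∈ S) (hc : c ∈ S) (hd : d ∈ S)
    (h1 : W.Adj a b) (h2 : W.Adj b c) (h3 : W.Adj a d) (h4 : W.Adj d c) (hac : a ≠ c) :
    b = d := by
  let a' : (S : Set (Fin 19)) := ⟨a, ha⟩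
  let b' : (S : Set (Fin 19)) := ⟨b, hb⟩
  let c' : (S : Set (Fin 19)) := ⟨c, hc⟩
  let d' : (S : Set (Fin 19)) := ⟨d, hd⟩
  have k1 : (W.induce (S : Set (Fin 19))).Adj a' b' := h1
  have k2 : (W.induce (S : Set (Fin 19))).Adj b' c' := h2
  have k3 : (W.induce (S : Set (Fin 19))).Adj a' d' := h3
  have k4 : (W.induce (S : Set (Fin 19))).Adj d' c' := h4
  have hac' : a' ≠ c' := fun h => hac (congrArg Subtype.val h)
  let p : (W.induce (S : Set (Fin 19))).Path a' c' := ⟨.cons k1 (.cons k2 .nil), by
    simp [Walk.cons_isPath_iff, k1.ne, k2.ne, hac']⟩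
  let q : (W.induce (S : Set (Fin 19))).Path a' c' := ⟨.cons k3 (.cons k4 .nil), by
    simp [Walk.cons_isPath_iff, k3.ne, k4.ne, hac']⟩
  have hpq := (hS.subsingleton_path _ _).elim p q
  have := congrArg (fun r : (W.induce (S : Set (Fin 19))).Path a' c' => r.1.support) hpq
  simp [p, q] at this
  exact congrArg Subtype.val this

theorem acyclic_tri (hS : (W.induce (S : Set (Fin 19))).IsAcyclic) {a b c : Fin 19}
    (ha : a ∈ S) (hb : b ∈ S) (hc : c ∈ S)
    (h1 : W.Adj a b) (h2 : W.Adj b c) (h3 : W.Adj a c) : False := by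
  let a' : (S : Set (Fin 19)) := ⟨a, ha⟩
  let b' : (S : Set (Fin 19)) := ⟨b, hb⟩
  let c' : (S : Set (Fin 19)) := ⟨c, hc⟩
  have k1 : (W.induce (S : Set (Fin 19))).Adj a' b' := h1
  have k2 : (W.induce (S : Set (Fin 19))).Adj b' c' := h2
  have k3 : (W.induce (S : Set (Fin 19))).Adj a' c' := h3
  let p : (W.induce (S : Set (Fin 19))).Path a' c' := ⟨.cons k1 (.cons k2 .nil), by
    simp [Walk.cons_isPath_iff, k1.ne, k2.ne, k3.ne]⟩
  let q : (W.induce (S : Set (Fin 19))).Path a' c' := ⟨.cons k3 .nil, by
    simp [Walk.cons_isPath_iff, k3.ne]⟩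
  have hpq := (hS.subsingleton_path _ _).elim p q
  have := congrArg (fun r : (W.induce (S : Set (Fin 19))).Path a' c' => r.1.length) hpq
  simp [p, q] at this

/-- A set of classes closed under adjacency within `S` and met by `S` contains `S`. -/
theorem closed_class (hS : (W.induce (S : Set (Fin 19))).Preconnected) (P : Fin 19 → Prop)
    (hP : ∀ a b, a ∈ S → b ∈ S → W.Adj a b → P a → P b) {a : Fin 19} (ha : a ∈ S) (hPa : P a)
    {b : Fin 19} (hb : b ∈ S) : P b := by
  obtain ⟨p⟩ := hS ⟨a, ha⟩ ⟨b, hb⟩
  have key : ∀ (x y : (S : Set (Fin 19))) (_ : (W.induce (S : Set (Fin 19))).Walk x y),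
      P x.1 → P y.1 := by
    intro x y w
    induction w with
    | nil => exact id
    | @cons x y z h _ ih => exact fun hx => ih (hP x.1 y.1 x.2 y.2 h hx)
  exact key _ _ p hPa

theorem card_le_five (hS : (W.induce (S : Set (Fin 19))).IsTree) : S.card ≤ 5 := by
  have hcon : (W.induce (S : Set (Fin 19))).Preconnected := hS.1.preconnected
  have hac : (W.induce (S : Set (Fin 19))).IsAcyclic := hS.2
  -- the number of vertices of `S` in each class
  have hsum : S.card = ∑ j ∈ Finset.range 5, (S.filter (fun a => cls a = j)).card := by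
    apply Finset.card_eq_sum_card_fiberwise
    intro a _
    have : ∀ a : Fin 19, cls a < 5 := by decide
    simpa using this a
  have hc0 : (S.filter (fun a => cls a = 0)).card ≤ 1 := by
    refine (Finset.card_le_card (Finset.filter_subset_filter _ (Finset.subset_univ S))).trans ?_
    decide
  have hc1 : (S.filter (fun a => cls a = 1)).card ≤ 2 := by
    refine (Finset.card_le_card (Finset.filter_subset_filter _ (Finset.subset_univ S))).trans ?_
    decide
  have hc2 : (S.filter (fun a => cls a = 2)).card ≤ 2 := by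
    refine (Finset.card_le_card (Finset.filter_subset_filter _ (Finset.subset_univ S))).trans ?_
    decide
  -- in the cliques there are at most two vertices
  have hclique : ∀ j, (j = 3 ∨ j = 4) → (S.filter (fun a => cls a = j)).card ≤ 2 := by
    intro j hj
    by_contra hcon3
    push Not at hcon3
    obtain ⟨a, b, c, ha, hb, hc, hab, hac', hbc⟩ := Finset.two_lt_card_iff.1 hcon3
    rw [Finset.mem_filter] at ha hb hc
    have adj : ∀ x y : Fin 19, cls x = j → cls y = j → x ≠ y → W.Adj x y := by
      rcases hj with rfl | rfl <;> decide +kernel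
    exact acyclic_tri hac ha.1 hb.1 hc.1 (adj _ _ ha.2 hb.2 hab) (adj _ _ hb.2 hc.2 hbc)
      (adj _ _ ha.2 hc.2 hac')
  -- two vertices of one clique: then `S` is inside the clique
  have htwo : ∀ j, (j = 3 ∨ j = 4) → (S.filter (fun a => cls a = j)).card ≤ 1 ∨
      S.card ≤ 5 := by
    intro j hj
    by_cases h : (S.filter (fun a => cls a = j)).card ≤ 1
    · exact Or.inl h
    · right
      push Not at h
      obtain ⟨a, b, ha, hb, hab⟩ := Finset.one_lt_card_iff.1 h
      rw [Finset.mem_filter] at ha hb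
      have adj : ∀ x y : Fin 19, cls x = j → cls y = j → x ≠ y → W.Adj x y := by
        rcases hj with rfl | rfl <;> decide +kernel
      have adj2 : ∀ x y z : Fin 19, cls x = j → cls y = j → cls z ≠ j → W.Adj x z →
          W.Adj z y := by
        rcases hj with rfl | rfl <;> decide +kernel
      have hall : ∀ c ∈ S, cls c = j := by
        intro c hc
        refine closed_class hcon (fun x => cls x = j) ?_ ha.1 ha.2 hc
        intro x y hx hy hxy hxj
        by_contra hyj
        -- y is adjacent to both a and b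
        have e1 : W.Adj y a := adj2 x a y hxj ha.2 hyj hxy
        have e2 : W.Adj y b := adj2 x b y hxj hb.2 hyj hxy
        exact acyclic_tri hac ha.1 hy hb.1 e1.symm e2 (adj _ _ ha.2 hb.2 hab)
      have : S.filter (fun a => cls a = j) = S := Finset.filter_true_of_mem hall
      have h2 := hclique j hj
      rw [this] at h2
      omega
  rcases htwo 3 (Or.inl rfl) with h3 | h3
  swap
  · exact h3
  rcases htwo 4 (Or.inr rfl) with h4 | h4
  swap
  · exact h4
  simp only [Finset.sum_range_succ, Finset.sum_range_zero] at hsum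
  -- a clique vertex together with the centre excludes one of the two middle vertices
  have hmid : ∀ j, (j = 3 ∨ j = 4) → ∀ z ∈ S, cls z = j → 0 ∈ S →
      (S.filter (fun a => cls a = j - 2)).card ≤ 1 := by
    intro j hj z hz hzj h0
    by_contra h
    push Not at h
    obtain ⟨a, b, ha, hb, hab⟩ := Finset.one_lt_card_iff.1 h
    rw [Finset.mem_filter] at ha hb
    have adj : ∀ x y : Fin 19, cls x = j → cls y = j - 2 → W.Adj x y ∧ W.Adj y 0 ∧ x ≠ 0 := by
      rcases hj with rfl | rfl <;> decide +kernel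
    have e1 := adj z a hzj ha.2
    have e2 := adj z b hzj hb.2
    exact hab (acyclic_two hac hz ha.1 h0 hb.1 e1.1 e1.2.1 e2.1 e2.2.1 e1.2.2)
  have hzero : 0 ∉ S → (S.filter (fun a => cls a = 0)).card = 0 := by
    intro h
    rw [Finset.card_eq_zero, Finset.filter_eq_empty_iff]
    intro x hx hx0
    have : ∀ x : Fin 19, cls x = 0 → x = 0 := by decide
    exact h (this x hx0 ▸ hx)
  by_cases p3 : (S.filter (fun a => cls a = 3)).card = 0
  · by_cases p4 : (S.filter (fun a => cls a = 4)).card = 0
    · omega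
    · by_cases h0 : 0 ∈ S
      · obtain ⟨z, hz⟩ := Finset.card_pos.1 (Nat.pos_of_ne_zero p4)
        rw [Finset.mem_filter] at hz
        have := hmid 4 (Or.inr rfl) z hz.1 hz.2 h0
        simp only [Nat.reduceSub] at this
        omega
      · have := hzero h0
        omega
  · obtain ⟨z, hz⟩ := Finset.card_pos.1 (Nat.pos_of_ne_zero p3)
    rw [Finset.mem_filter] at hz
    by_cases h0 : 0 ∈ S
    · have m1 := hmid 3 (Or.inl rfl) z hz.1 hz.2 h0
      simp only [Nat.reduceSub] at m1
      by_cases p4 : (S.filter (fun a => cls a = 4)).card = 0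
      · omega
      · obtain ⟨z', hz'⟩ := Finset.card_pos.1 (Nat.pos_of_ne_zero p4)
        rw [Finset.mem_filter] at hz'
        have m2 := hmid 4 (Or.inr rfl) z' hz'.1 hz'.2 h0
        simp only [Nat.reduceSub] at m2
        omega
    · have := hzero h0
      by_cases p4 : (S.filter (fun a => cls a = 4)).card = 0
      · omega
      · exfalso
        obtain ⟨z', hz'⟩ := Finset.card_pos.1 (Nat.pos_of_ne_zero p4)
        rw [Finset.mem_filter] at hz'
        have := closed_class hcon (fun x => cls x = 3 ∨ cls x = 1) ?_ hz.1 (Or.inl hz.2) hz'.1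
        · rw [hz'.2] at this
          omega
        · intro x y _ hy hxy hx
          have aux : ∀ x y : Fin 19, W.Adj x y → (cls x = 3 ∨ cls x = 1) → y ≠ 0 →
              (cls y = 3 ∨ cls y = 1) := by decide +kernel
          exact aux x y hxy hx (fun h => h0 (h ▸ hy))

end trees

theorem treeNumber_le : treeNumber W ≤ 5 := by
  unfold treeNumber
  apply csSup_le'
  rintro k ⟨S, hS, rfl⟩
  exact card_le_five hS

/-- **Disproof.** The inequality `tree(G) ≥ ⌈ecc_avg(G) + (1/3) max λ(v)⌉` fails for some
connected graph `G` on 19 vertices. -/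
theorem result : ∃ G : SimpleGraph (Fin 19), G.Connected ∧
    (treeNumber G : ℤ) < ⌈eccAvg G + (1 / 3 : ℝ) * (maxLam G : ℝ)⌉ := by
  refine ⟨W, W_connected, ?_⟩
  rw [Int.lt_ceil]
  have h1 : (treeNumber W : ℝ) ≤ 5 := by exact_mod_cast treeNumber_le
  have h2 : (4 : ℝ) ≤ maxLam W := by exact_mod_cast maxLam_ge
  have h3 : eccAvg W = 70 / 19 := by
    unfold eccAvg
    have := sum_ecc
    have h4 : ∑ v : Fin 19, (ecc W v : ℝ) = 70 := by exact_mod_cast this
    rw [h4]
    simp
  push_cast
  rw [h3]
  linarith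

end Pool.Agent.Results.MP_e3442a_co.InducedTreeBoundFails
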